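import Pool.Agent.Lib_MP_0e5907.QMain

/-!
# MP_0e5907 - simplicial 3-polytopes on a polynomial grid

Every simplicial 3-polytope with `n` vertices has the combinatorial type (isomorphic face lattice) of a simplicial 3-polytope all of whose
vertices have coordinates which are natural numbers at most `n ^ 200`.
-/

namespace Pool.Agent.Results.MP_0e5907_co.PolynomialGrid

open MP0e5907

theorem result {n : ℕ} (x : Fin n → E3) (hx : IsSimplicialPolytope x) :
    ∃ y : Fin n → E3, IsSimplicialPolytope y ∧ SameType x y ∧
      ∀ i j, ∃ k : ℕ, y i j = k ∧ k ≤ n ^ 200 :=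
  main_theorem2 x hx

end Pool.Agent.Results.MP_0e5907_co.PolynomialGrid
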