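import Pool.Agent.Lib_MP_0e5907_lb.Final

/-!
# MP_0e5907 - a quadratic lower bound for the grid size of 3-polytopes

For every `n ≥ 7` there is a combinatorial type of 3-polytopes with `n` vertices (a part of a trapezohedron) all of whose realizations
with integer vertices have volume at least `c * n ^ 6`; in particular `G(n) ≥ c * n ^ 2`.
-/

namespace Pool.Agent.Results.MP_0e5907_co.QuadraticLowerBound

open MP0e5907LB

theorem result : ∃ c : ℝ, 0 < c ∧ ∀ n : ℕ, 7 ≤ n → ∃ x : Fin n → E3, IsPolytope x ∧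
    ∀ y : Fin n → E3, IsPolytope y → SameType x y → (∀ i j, ∃ k : ℤ, y i j = k) →
      c * (n : ℝ) ^ 6 ≤ (MeasureTheory.volume (hull y)).toReal ∧
      ∀ G : ℕ, (∀ i j, 0 ≤ y i j ∧ y i j ≤ G) → c * (n : ℝ) ^ 2 ≤ G :=
  main_theorem

end Pool.Agent.Results.MP_0e5907_co.QuadraticLowerBound
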