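import Pool.Agent.Lib_MP_0e5907.SMain

/-!
# MP_0e5907 - simple 3-polytopes on a polynomial grid

There is an absolute constant `C` such that every simple 3-polytope with `n` vertices has the combinatorial type (isomorphic face
lattice) of a simple 3-polytope all of whose vertices have coordinates which are natural numbers at most `C * n ^ 150000`.
-/

namespace Pool.Agent.Results.MP_0e5907_co.SimplePolynomialGrid

open MP0e5907

theorem result : ∃ C : ℕ, ∀ (n : ℕ) (x : Fin n → E3), IsSimplePolytope x →
    ∃ y : Fin n → E3, IsSimplePolytope y ∧ SameType x y ∧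
      ∀ i j, ∃ k : ℕ, y i j = k ∧ k ≤ C * n ^ 150000 :=
  main_simple

end Pool.Agent.Results.MP_0e5907_co.SimplePolynomialGrid
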